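import Pool.Agent.H43.G.R_seed8.H300R2.BH.Defs

/-! T10: pairs (a, d) with many bad primes are rare. -/

set_option autoImplicit false

namespace Pool.Agent.H394R2.BH

open Finset Polynomial
open Pool.Agent.H300R2.BH

theorem cnt (g A a0 : ℕ) (hg : 0 < g) (P : ℕ → Prop) [DecidablePred P]
    (hP : ∀ a b, P a → P b → a ≡ b [MOD g]) :
    ((Ioc a0 (a0 + A)).filter P).card ≤ A / g + 2 := by
  have h1 : ((Ioc a0 (a0 + A)).filter P).card ≤ (Icc (a0 / g) ((a0 + A) / g)).card := by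
    refine card_le_card_of_injOn (fun a => a / g) ?_ ?_
    · intro a ha
      rw [mem_coe, mem_filter, mem_Ioc] at ha
      rw [mem_coe, mem_Icc]
      exact ⟨Nat.div_le_div_right ha.1.1.le, Nat.div_le_div_right ha.1.2⟩
    · intro a ha b hb hab
      rw [mem_coe, mem_filter] at ha hb
      have h2 : a % g = b % g := hP a b ha.2 hb.2
      have h3 : a / g = b / g := hab
      rw [← Nat.div_add_mod a g, ← Nat.div_add_mod b g, h2, h3]
  refine h1.trans ?_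
  rw [Nat.card_Icc]
  have h4 : (a0 + A) / g < a0 / g + A / g + 2 := by
    rw [Nat.div_lt_iff_lt_mul hg]
    have h5 := Nat.lt_div_mul_add (a := a0) hg
    have h6 := Nat.lt_div_mul_add (a := A) hg
    nlinarith
  rw [tsub_le_iff_right]
  linarith

theorem cnt_real (g A a0 : ℕ) (hg : 0 < g) (hgA : g ≤ A) (P : ℕ → Prop) [DecidablePred P]
    (hP : ∀ a b, P a → P b → a ≡ b [MOD g]) :
    (((Ioc a0 (a0 + A)).filter P).card : ℝ) ≤ 3 * A / g := by
  have h1 := cnt g A a0 hg P hP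
  have h2 : ((((Ioc a0 (a0 + A)).filter P).card : ℕ) : ℝ) ≤ ((A / g + 2 : ℕ) : ℝ) := by
    exact_mod_cast h1
  refine h2.trans ?_
  have hg' : (0 : ℝ) < g := by exact_mod_cast hg
  have h3 : ((A / g : ℕ) : ℝ) ≤ A / g := Nat.cast_div_le
  have h4 : (1 : ℝ) ≤ A / g := by
    rw [le_div_iff₀ hg', one_mul]
    exact_mod_cast hgA
  push_cast
  have h5 : 3 * (A : ℝ) / g = A / g + 2 * (A / g) := by ring
  rw [h5]
  linarith

/-- primes dividing all values -/
theorem bad_dvd (j : ℕ) (hj : 1 ≤ j) (R : ℤ[X]) (σ : ℤ) (a d z : ℕ) :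
    ((bad z (FF R j σ a d) : ℕ) : ℤ) ∣ (a : ℤ) + R.eval 0 ∧
      ((bad z (FF R j σ a d) : ℕ) : ℤ) ∣ (R.eval 1 - R.eval 0) + σ * d := by
  have hall : ∀ p : ℕ, p.Prime → rho (FF R j σ a d) p = p → ∀ k ∈ range p,
      (p : ℤ) ∣ (FF R j σ a d).eval (k : ℤ) := by
    intro p _ hrho k hk
    unfold rho at hrho
    have h1 : (range p).filter (fun k : ℕ => (p : ℤ) ∣ (FF R j σ a d).eval (k : ℤ)) = range p := by
      apply eq_of_subset_of_card_le (filter_subset _ _)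
      rw [hrho, card_range]
    rw [← h1] at hk
    exact (mem_filter.1 hk).2
  have h0 : ∀ p : ℕ, p.Prime → rho (FF R j σ a d) p = p → (p : ℤ) ∣ (a : ℤ) + R.eval 0 := by
    intro p hp hrho
    have h1 := hall p hp hrho 0 (mem_range.2 hp.pos)
    have h2 : (FF R j σ a d).eval ((0 : ℕ) : ℤ) = (a : ℤ) + R.eval 0 := by
      unfold FF
      simp [show j ≠ 0 by omega]
    rwa [h2] at h1
  have h1 : ∀ p : ℕ, p.Prime → rho (FF R j σ a d) p = p →
      (p : ℤ) ∣ (R.eval 1 - R.eval 0) + σ * d := by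
    intro p hp hrho
    have h2 := hall p hp hrho 1 (mem_range.2 hp.one_lt)
    have h3 : (FF R j σ a d).eval ((1 : ℕ) : ℤ) = (a : ℤ) + R.eval 1 + σ * d := by
      unfold FF
      simp
    rw [h3] at h2
    have h4 := dvd_sub h2 (h0 p hp hrho)
    have h5 : (a : ℤ) + R.eval 1 + σ * d - ((a : ℤ) + R.eval 0)
        = (R.eval 1 - R.eval 0) + σ * d := by ring
    rwa [h5] at h4
  constructor
  · rw [Int.natCast_dvd]
    unfold bad
    apply Finset.prod_primes_dvd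
    · intro p hp
      exact (mem_filter.1 hp).2.1.prime
    · intro p hp
      exact Int.natCast_dvd.1 (h0 p (mem_filter.1 hp).2.1 (mem_filter.1 hp).2.2)
  · rw [Int.natCast_dvd]
    unfold bad
    apply Finset.prod_primes_dvd
    · intro p hp
      exact (mem_filter.1 hp).2.1.prime
    · intro p hp
      exact Int.natCast_dvd.1 (h1 p (mem_filter.1 hp).2.1 (mem_filter.1 hp).2.2)

theorem bad_prime_le (F : ℤ[X]) (z p : ℕ) (hp : p.Prime) (h : p ∣ bad z F) : p ≤ z := by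
  unfold bad at h
  rw [hp.prime.dvd_finsetProd_iff] at h
  obtain ⟨q, hq, hpq⟩ := h
  rw [mem_filter, mem_Icc] at hq
  have h1 : p = q := (Nat.prime_dvd_prime_iff_eq hp hq.2.1).1 hpq
  rw [h1]
  exact hq.1.2

theorem exists_div (F : ℤ[X]) (z y : ℕ) (hy : 1 ≤ y) (h : y < bad z F) :
    ∃ g, g ∣ bad z F ∧ y < g ∧ g ≤ y * z := by
  classical
  have hex : ∃ g, g ∣ bad z F ∧ y < g := ⟨_, dvd_rfl, h⟩
  refine ⟨Nat.find hex, (Nat.find_spec hex).1, (Nat.find_spec hex).2, ?_⟩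
  obtain ⟨g, hg⟩ : ∃ g, g = Nat.find hex := ⟨_, rfl⟩
  have hg1 : g ∣ bad z F := by rw [hg]; exact (Nat.find_spec hex).1
  have hg2 : y < g := by rw [hg]; exact (Nat.find_spec hex).2
  rw [← hg]
  by_contra hcon
  push Not at hcon
  have hgne : g ≠ 1 := by omega
  have hp := Nat.minFac_prime hgne
  have hpg := Nat.minFac_dvd g
  have hpz := bad_prime_le F z _ hp (hpg.trans hg1)
  obtain ⟨t, ht⟩ := hpg
  have hty : y < t := by
    by_contra hle
    push Not at hle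
    have h1 : g ≤ z * y := by
      calc g = g.minFac * t := ht
        _ ≤ z * y := Nat.mul_le_mul hpz hle
    rw [mul_comm] at h1
    omega
  have htg : t ∣ g := ⟨g.minFac, by rw [mul_comm]; exact ht⟩
  have htlt : t < g := by
    have h2 := hp.two_le
    nlinarith
  rw [hg] at htlt
  exact Nat.find_min hex htlt ⟨htg.trans hg1, hty⟩

/-- T10 (SingExc.lean). -/
theorem exc_count (j : ℕ) (hj : 1 ≤ j) (R : ℤ[X]) (hR : R.natDegree < j) (σ : ℤ)
    (hσ : σ = 1 ∨ σ = -1) (A D a0 z y : ℕ) (hy : 1 ≤ y) (hz : 1 ≤ z) (hyA : y * z ≤ A)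
    (hyD : y * z ≤ D) :
    ((((Ioc a0 (a0 + A)) ×ˢ (Ioc D (2 * D))).filter (fun ad : ℕ × ℕ =>
      y < bad z (FF R j σ ad.1 ad.2))).card : ℝ) ≤ 16 * A * D / y := by
  classical
  have hsub : ((Ioc a0 (a0 + A)) ×ˢ (Ioc D (2 * D))).filter (fun ad : ℕ × ℕ =>
      y < bad z (FF R j σ ad.1 ad.2)) ⊆
      (Ioc y (y * z)).biUnion (fun g =>
        ((Ioc a0 (a0 + A)).filter (fun a : ℕ => (g : ℤ) ∣ (a : ℤ) + R.eval 0)) ×ˢ
        ((Ioc D (D + D)).filter (fun d : ℕ => (g : ℤ) ∣ (R.eval 1 - R.eval 0) + σ * d))) := by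
    rintro ⟨a, d⟩ had
    rw [mem_filter, mem_product] at had
    obtain ⟨⟨ha, hd⟩, hlt⟩ := had
    obtain ⟨g, hg1, hg2, hg3⟩ := exists_div _ z y hy hlt
    obtain ⟨hb1, hb2⟩ := bad_dvd j hj R σ a d z
    have hgz : (g : ℤ) ∣ ((bad z (FF R j σ a d) : ℕ) : ℤ) := Int.natCast_dvd_natCast.2 hg1
    rw [mem_biUnion]
    refine ⟨g, mem_Ioc.2 ⟨hg2, hg3⟩, ?_⟩
    rw [mem_product, mem_filter, mem_filter]
    refine ⟨⟨ha, hgz.trans hb1⟩, ⟨?_, hgz.trans hb2⟩⟩
    rwa [← two_mul]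
  have h1 : ((((Ioc a0 (a0 + A)) ×ˢ (Ioc D (2 * D))).filter (fun ad : ℕ × ℕ =>
      y < bad z (FF R j σ ad.1 ad.2))).card : ℝ) ≤
      ∑ g ∈ Ioc y (y * z), (9 * A * D : ℝ) * ((g : ℝ) ^ 2)⁻¹ := by
    have h2 : (((Ioc a0 (a0 + A)) ×ˢ (Ioc D (2 * D))).filter (fun ad : ℕ × ℕ =>
      y < bad z (FF R j σ ad.1 ad.2))).card ≤ ∑ g ∈ Ioc y (y * z),
        ((Ioc a0 (a0 + A)).filter (fun a : ℕ => (g : ℤ) ∣ (a : ℤ) + R.eval 0)).card *
        ((Ioc D (D + D)).filter (fun d : ℕ => (g : ℤ) ∣ (R.eval 1 - R.eval 0) + σ * d)).card := by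
      refine (card_le_card hsub).trans (card_biUnion_le.trans (le_of_eq ?_))
      exact sum_congr rfl (fun g _ => card_product _ _)
    have h3 : ((((Ioc a0 (a0 + A)) ×ˢ (Ioc D (2 * D))).filter (fun ad : ℕ × ℕ =>
      y < bad z (FF R j σ ad.1 ad.2))).card : ℝ) ≤ ((∑ g ∈ Ioc y (y * z),
        ((Ioc a0 (a0 + A)).filter (fun a : ℕ => (g : ℤ) ∣ (a : ℤ) + R.eval 0)).card *
        ((Ioc D (D + D)).filter (fun d : ℕ =>
          (g : ℤ) ∣ (R.eval 1 - R.eval 0) + σ * d)).card : ℕ) : ℝ) := by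
      exact_mod_cast h2
    refine h3.trans ?_
    push_cast
    refine sum_le_sum (fun g hg => ?_)
    rw [mem_Ioc] at hg
    have hg0 : 0 < g := by omega
    have h4 := cnt_real g A a0 hg0 (hg.2.trans hyA)
      (fun a : ℕ => (g : ℤ) ∣ (a : ℤ) + R.eval 0) (fun a b ha hb => by
        rw [Nat.modEq_iff_dvd]
        have := dvd_sub hb ha
        have h5 : (b : ℤ) + R.eval 0 - ((a : ℤ) + R.eval 0) = (b : ℤ) - a := by ring
        rwa [h5] at this)
    have h5 := cnt_real g D D hg0 (hg.2.trans hyD)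
      (fun d : ℕ => (g : ℤ) ∣ (R.eval 1 - R.eval 0) + σ * d) (fun a b ha hb => by
        rw [Nat.modEq_iff_dvd]
        have h6 := dvd_sub hb ha
        have h7 : R.eval 1 - R.eval 0 + σ * (b : ℤ) - (R.eval 1 - R.eval 0 + σ * (a : ℤ))
            = σ * ((b : ℤ) - a) := by ring
        rw [h7] at h6
        rcases hσ with hs | hs
        · rwa [hs, one_mul] at h6
        · rw [hs, neg_one_mul] at h6
          exact (dvd_neg.1 h6))
    have hg' : (0 : ℝ) < g := by exact_mod_cast hg0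
    calc _ ≤ (3 * (A : ℝ) / g) * (3 * (D : ℝ) / g) :=
          mul_le_mul h4 h5 (Nat.cast_nonneg _) (by positivity)
      _ = (9 * A * D : ℝ) * ((g : ℝ) ^ 2)⁻¹ := by
          field_simp
          ring
  refine h1.trans ?_
  rw [← mul_sum]
  have h6 := sum_Ioc_inv_sq_le_sub (α := ℝ) (k := y) (n := y * z) (by omega)
    (Nat.le_mul_of_pos_right _ hz)
  have hy' : (0 : ℝ) < y := by exact_mod_cast hy
  have h7 : ∑ g ∈ Ioc y (y * z), ((g : ℝ) ^ 2)⁻¹ ≤ (y : ℝ)⁻¹ := by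
    refine h6.trans ?_
    have : (0 : ℝ) ≤ (((y * z : ℕ) : ℝ))⁻¹ := by positivity
    linarith
  calc (9 * A * D : ℝ) * ∑ g ∈ Ioc y (y * z), ((g : ℝ) ^ 2)⁻¹
      ≤ (9 * A * D : ℝ) * (y : ℝ)⁻¹ := mul_le_mul_of_nonneg_left h7 (by positivity)
    _ = 9 * A * D / y := by rw [div_eq_mul_inv]
    _ ≤ 16 * A * D / y := by
        apply div_le_div_of_nonneg_right _ hy'.le
        have : (0 : ℝ) ≤ A * D := by positivity
        nlinarith

end Pool.Agent.H394R2.BH
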